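import Pool.Agent.Helper20.GT.Stm

set_option autoImplicit false

open Finset Filter Topology
open scoped Classical

namespace Pool.Agent.Helper28.GT

open Pool.Agent.Helper20.GT

theorem pw {M s : ℕ} (hM : 1 ≤ M) (hs : 1 ≤ s) (hsM : s ^ 2 ≤ 4 * M) {t θ : ℝ} (ht0 : 0 ≤ t)
    (ht1 : t < 1) (h : (1 + t) / 2 ≤ θ) : (s : ℝ) * (s : ℝ) ^ t ≤ 4 * (M : ℝ) ^ θ := by
  have hs' : (0 : ℝ) < s := by exact_mod_cast hs
  have hM' : (1 : ℝ) ≤ M := by exact_mod_cast hM
  have h1 : (s : ℝ) * (s : ℝ) ^ t = ((s : ℝ) ^ 2) ^ ((1 + t) / 2) := by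
    rw [← Real.rpow_natCast (s : ℝ) 2, ← Real.rpow_mul hs'.le]
    have : ((2 : ℕ) : ℝ) * ((1 + t) / 2) = 1 + t := by push_cast; ring
    rw [this, Real.rpow_add hs', Real.rpow_one]
  have h2 : ((s : ℝ) ^ 2) ≤ 4 * M := by exact_mod_cast hsM
  rw [h1]
  calc ((s : ℝ) ^ 2) ^ ((1 + t) / 2) ≤ (4 * M : ℝ) ^ ((1 + t) / 2) :=
        Real.rpow_le_rpow (by positivity) h2 (by linarith)
    _ = (4 : ℝ) ^ ((1 + t) / 2) * (M : ℝ) ^ ((1 + t) / 2) :=
        Real.mul_rpow (by norm_num) (by linarith)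
    _ ≤ 4 * (M : ℝ) ^ θ := by
        refine mul_le_mul ?_ (Real.rpow_le_rpow_of_exponent_le hM' h)
          (Real.rpow_nonneg (by linarith) _) (by norm_num)
        calc (4 : ℝ) ^ ((1 + t) / 2) ≤ (4 : ℝ) ^ (1 : ℝ) :=
              Real.rpow_le_rpow_of_exponent_le (by norm_num) (by linarith)
          _ = 4 := Real.rpow_one _

theorem uni : S_UNI := by
  rintro Q R ⟨t1, C1, h10, h11, hC1, hQ, hx1⟩ ⟨t2, C2, h20, h21, hC2, hR, hx2⟩
  obtain ⟨K, hK⟩ : ∃ K : ℕ, C1 + C2 ≤ K := ⟨_, Nat.le_ceil _⟩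
  have hK2 : (2 : ℝ) ≤ K := by linarith
  have hCC : (0 : ℝ) ≤ K * (C1 + C2) := by positivity
  set C := 8 * (2 * K + 1) * (C1 + C2) with hCdef
  have hCge : 8 * (C1 + C2) ≤ C := by rw [hCdef]; nlinarith
  refine ⟨(1 + max t1 t2) / 2, C, ?_, ?_, by linarith, ?_, ?_⟩
  · have := le_max_left t1 t2
    linarith
  · have := max_lt h11 h21
    linarith
  · rintro q (hq | hq)
    · have := hQ q hq; linarith
    · have := hR q hq; linarith
  intro M hM
  set s := Nat.sqrt M + 1 with hs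
  have hs1 : 1 ≤ s := by omega
  have hMs : M < s * s := Nat.lt_succ_sqrt M
  have hsq : 1 ≤ Nat.sqrt M := Nat.sqrt_pos.2 hM
  have hsM : s ^ 2 ≤ 4 * M := by
    have h1 : Nat.sqrt M * Nat.sqrt M ≤ M := Nat.sqrt_le M
    have h2 : s ≤ 2 * Nat.sqrt M := by omega
    calc s ^ 2 ≤ (2 * Nat.sqrt M) ^ 2 := Nat.pow_le_pow_left h2 2
      _ = 4 * (Nat.sqrt M * Nat.sqrt M) := by ring
      _ ≤ 4 * M := by omega
  obtain ⟨x1, hb1, hc1⟩ := hx1 s hs1
  obtain ⟨x2, hb2, hc2⟩ := hx2 s hs1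
  have hs0 : (1 : ℝ) ≤ s := by exact_mod_cast hs1
  have hdiv : ∀ d < M, d / s < s := fun d hd => Nat.div_lt_of_lt_mul (hd.trans hMs)
  have hmod : ∀ d : ℕ, d % s < s := fun d => Nat.mod_lt d (by omega)
  have hdec : ∀ (q : ℝ) (d : ℕ), (s * x1 (d / s) + x2 (d % s)) + q * d =
      s * (x1 (d / s) + q * (d / s : ℕ)) + (x2 (d % s) + q * (d % s : ℕ)) := by
    intro q d
    have h1 : (d : ℝ) = s * (d / s : ℕ) + (d % s : ℕ) := by exact_mod_cast (Nat.div_add_mod d s).symm
    have h2 : q * (d : ℝ) = q * (s * (d / s : ℕ) + (d % s : ℕ)) := congrArg (fun z => q * z) h1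
    rw [h2]; ring
  refine ⟨fun d => s * x1 (d / s) + x2 (d % s), ?_, ?_⟩
  · intro d hd
    have h1 := hb1 _ (hdiv d hd)
    have h2 := hb2 _ (hmod d)
    have h3 : |(s : ℝ) * x1 (d / s) + x2 (d % s)| ≤ s * (C1 * s) + C2 * s := by
      refine (abs_add_le _ _).trans (add_le_add ?_ h2)
      rw [abs_mul, Nat.abs_cast]
      exact mul_le_mul_of_nonneg_left h1 (by linarith)
    have h4 : (s : ℝ) ^ 2 ≤ 4 * M := by exact_mod_cast hsM
    have h5 : (s : ℝ) * (C1 * s) + C2 * s ≤ (C1 + C2) * (s : ℝ) ^ 2 := by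
      have h8 : 0 ≤ C2 * ((s : ℝ) * ((s : ℝ) - 1)) :=
        mul_nonneg (by linarith) (mul_nonneg (by linarith) (by linarith))
      nlinarith
    have h6 : (C1 + C2) * (s : ℝ) ^ 2 ≤ (C1 + C2) * (4 * M) :=
      mul_le_mul_of_nonneg_left h4 (by linarith)
    have h7 : (C1 + C2) * (4 * M) ≤ C * M := by
      have : (4 * (C1 + C2)) * M ≤ C * M := mul_le_mul_of_nonneg_right (by linarith) (Nat.cast_nonneg _)
      linarith
    linarith
  · rintro q (hq | hq)
    · -- q ∈ Q
      have hsub : cells M (fun d => s * x1 (d / s) + x2 (d % s)) q ⊆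
          (cells s x1 q).biUnion fun c => Finset.Ico ((s : ℤ) * c - K * s) (s * c + (K + 1) * s) := by
        intro z hz
        obtain ⟨d, hd, rfl⟩ := Finset.mem_image.1 hz
        have hd' := Finset.mem_range.1 hd
        rw [Finset.mem_biUnion]
        refine ⟨⌊x1 (d / s) + q * (d / s : ℕ)⌋, Finset.mem_image.2
          ⟨d / s, Finset.mem_range.2 (hdiv d hd'), rfl⟩, ?_⟩
        rw [hdec]
        set v := x1 (d / s) + q * (d / s : ℕ) with hv
        have h1 := Int.floor_le v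
        have h2 := Int.lt_floor_add_one v
        have h3 : |x2 (d % s) + q * (d % s : ℕ)| ≤ K * s := by
          have h4 := hb2 _ (hmod d)
          have h5 : |q * (d % s : ℕ)| ≤ C1 * s := by
            rw [abs_mul, Nat.abs_cast]
            refine mul_le_mul (hQ q hq) ?_ (Nat.cast_nonneg _) (by linarith)
            exact_mod_cast (hmod d).le
          calc _ ≤ |x2 (d % s)| + |q * (d % s : ℕ)| := abs_add_le _ _
            _ ≤ C2 * s + C1 * s := add_le_add h4 h5
            _ = (C1 + C2) * s := by ring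
            _ ≤ K * s := mul_le_mul_of_nonneg_right hK (by linarith)
        have h4 := abs_le.1 h3
        rw [Finset.mem_Ico]
        constructor
        · rw [Int.le_floor]
          push_cast
          have : (s : ℝ) * (⌊v⌋ : ℝ) ≤ s * v := mul_le_mul_of_nonneg_left h1 (by linarith)
          linarith [h4.1]
        · rw [Int.floor_lt]
          push_cast
          have : (s : ℝ) * v < s * ((⌊v⌋ : ℝ) + 1) := mul_lt_mul_of_pos_left h2 (by linarith)
          nlinarith [h4.2]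
      have hcard := (Finset.card_le_card hsub).trans Finset.card_biUnion_le
      have h1 : ∀ c ∈ cells s x1 q, (Finset.Ico ((s : ℤ) * c - K * s) (s * c + (K + 1) * s)).card
          = (2 * K + 1) * s := by
        intro c _
        rw [Int.card_Ico]
        have : (s : ℤ) * c + (K + 1) * s - ((s : ℤ) * c - K * s) = (((2 * K + 1) * s : ℕ) : ℤ) := by
          push_cast; ring
        rw [this, Int.toNat_natCast]
      rw [Finset.sum_congr rfl h1, Finset.sum_const, smul_eq_mul] at hcard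
      have h2 : ((cells M (fun d => s * x1 (d / s) + x2 (d % s)) q).card : ℝ) ≤
          (cells s x1 q).card * ((2 * K + 1) * s) := by exact_mod_cast hcard
      have h3 := hc1 q hq
      have h4 : ((cells s x1 q).card : ℝ) * ((2 * K + 1) * s) ≤
          C1 * (s : ℝ) ^ t1 * ((2 * K + 1) * s) := mul_le_mul_of_nonneg_right h3 (by positivity)
      have h5 := pw hM hs1 hsM (t := t1) (θ := (1 + max t1 t2) / 2) h10 h11
        (by have := le_max_left t1 t2; linarith)
      have h6 : (0 : ℝ) ≤ (M : ℝ) ^ ((1 + max t1 t2) / 2) := by positivity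
      calc _ ≤ _ := h2
        _ ≤ _ := h4
        _ = C1 * (2 * K + 1) * ((s : ℝ) * (s : ℝ) ^ t1) := by ring
        _ ≤ C1 * (2 * K + 1) * (4 * (M : ℝ) ^ ((1 + max t1 t2) / 2)) :=
            mul_le_mul_of_nonneg_left h5 (by positivity)
        _ = (4 * (2 * K + 1) * C1) * (M : ℝ) ^ ((1 + max t1 t2) / 2) := by ring
        _ ≤ C * (M : ℝ) ^ ((1 + max t1 t2) / 2) := by
            refine mul_le_mul_of_nonneg_right ?_ h6
            rw [hCdef]
            nlinarith
    · -- q ∈ R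
      have hsub : cells M (fun d => s * x1 (d / s) + x2 (d % s)) q ⊆
          ((Finset.range s ×ˢ cells s x2 q) ×ˢ ({0, 1} : Finset ℤ)).image fun w =>
            ⌊(s : ℝ) * (x1 w.1.1 + q * (w.1.1 : ℕ))⌋ + w.1.2 + w.2 := by
        intro z hz
        obtain ⟨d, hd, rfl⟩ := Finset.mem_image.1 hz
        have hd' := Finset.mem_range.1 hd
        rw [hdec]
        set u := (s : ℝ) * (x1 (d / s) + q * (d / s : ℕ)) with hu
        set v := x2 (d % s) + q * (d % s : ℕ) with hv
        have h1 := Int.floor_le u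
        have h2 := Int.lt_floor_add_one u
        have h3 := Int.floor_le v
        have h4 := Int.lt_floor_add_one v
        have h5 : ⌊u⌋ + ⌊v⌋ ≤ ⌊u + v⌋ := by
          rw [Int.le_floor]; push_cast; linarith
        have h6 : ⌊u + v⌋ < ⌊u⌋ + ⌊v⌋ + 2 := by
          rw [Int.floor_lt]; push_cast; linarith
        have hmem1 : ⌊v⌋ ∈ cells s x2 q :=
          Finset.mem_image.2 ⟨d % s, Finset.mem_range.2 (hmod d), rfl⟩
        rw [Finset.mem_image]
        rcases (show ⌊u + v⌋ = ⌊u⌋ + ⌊v⌋ + 0 ∨ ⌊u + v⌋ = ⌊u⌋ + ⌊v⌋ + 1 by omega) with h7 | h7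
        · refine ⟨((d / s, ⌊v⌋), 0), ?_, h7.symm⟩
          rw [Finset.mem_product, Finset.mem_product]
          exact ⟨⟨Finset.mem_range.2 (hdiv d hd'), hmem1⟩, by simp⟩
        · refine ⟨((d / s, ⌊v⌋), 1), ?_, h7.symm⟩
          rw [Finset.mem_product, Finset.mem_product]
          exact ⟨⟨Finset.mem_range.2 (hdiv d hd'), hmem1⟩, by simp⟩
      have hcard := (Finset.card_le_card hsub).trans Finset.card_image_le
      rw [Finset.card_product, Finset.card_product, Finset.card_range] at hcard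
      have h2c : ({0, 1} : Finset ℤ).card = 2 := by simp
      rw [h2c] at hcard
      have h2 : ((cells M (fun d => s * x1 (d / s) + x2 (d % s)) q).card : ℝ) ≤
          s * (cells s x2 q).card * 2 := by exact_mod_cast hcard
      have h3 := hc2 q hq
      have h5 := pw hM hs1 hsM (t := t2) (θ := (1 + max t1 t2) / 2) h20 h21
        (by have := le_max_right t1 t2; linarith)
      have h6 : (0 : ℝ) ≤ (M : ℝ) ^ ((1 + max t1 t2) / 2) := by positivity
      calc _ ≤ _ := h2
        _ ≤ s * (C2 * (s : ℝ) ^ t2) * 2 := by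
            refine mul_le_mul_of_nonneg_right (mul_le_mul_of_nonneg_left h3 (by linarith)) (by norm_num)
        _ = 2 * C2 * ((s : ℝ) * (s : ℝ) ^ t2) := by ring
        _ ≤ 2 * C2 * (4 * (M : ℝ) ^ ((1 + max t1 t2) / 2)) :=
            mul_le_mul_of_nonneg_left h5 (by linarith)
        _ = (8 * C2) * (M : ℝ) ^ ((1 + max t1 t2) / 2) := by ring
        _ ≤ C * (M : ℝ) ^ ((1 + max t1 t2) / 2) :=
            mul_le_mul_of_nonneg_right (by linarith) h6

end Pool.Agent.Helper28.GT
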